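import Pool.Agent.Q76.Sub.Lower
import Pool.Agent.Q76.Sub.Struct

/-!
# Border subrank versus Hilbert-Mumford subrank

The tensor `exampleT ∈ (ℂ^3)^{⊗ 4}`, the sum of the eight basis tensors `0000`, `0110`, `0101`,
`1010`, `1001`, `1101`, `2001`, `2111`, has border subrank at least two, while no one-parameter
subgroup of `GL_3(ℂ)^4` takes it to (a point of the orbit of) `I_2` or `I_3`.
-/

set_option autoImplicit false

namespace Pool.Agent.Results.MP_5e02e7_ag.HilbertMumfordGap

open Pool.Agent.Q76.Sub Filter Topology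

theorem bddAbove_aux {P : ℕ → Prop} {n : ℕ} : BddAbove {r | r ≤ n ∧ P r} :=
  ⟨n, fun _ h => h.1⟩

theorem border : unitT 4 3 2 ∈ closure (orbit exampleT) := by
  have h1 : Tendsto (fun t : ℂ => fun i : Fin 4 → Fin 3 =>
      unitT 4 3 2 i + errC (i 0) (i 1) (i 2) (i 3) * t ^ (errK (i 0) (i 1) (i 2) (i 3) + 1))
      (𝓝[≠] 0) (𝓝 (unitT 4 3 2)) := by
    rw [tendsto_pi_nhds]
    intro i
    have h2 : Tendsto (fun t : ℂ => unitT 4 3 2 i +
        errC (i 0) (i 1) (i 2) (i 3) * t ^ (errK (i 0) (i 1) (i 2) (i 3) + 1)) (𝓝 0)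
        (𝓝 (unitT 4 3 2 i + errC (i 0) (i 1) (i 2) (i 3) *
          0 ^ (errK (i 0) (i 1) (i 2) (i 3) + 1))) := by
      apply Continuous.tendsto
      fun_prop
    rw [zero_pow (Nat.succ_ne_zero _), mul_zero, add_zero] at h2
    exact h2.mono_left nhdsWithin_le_nhds
  refine mem_closure_of_tendsto h1 ?_
  filter_upwards [self_mem_nhdsWithin] with t ht
  have ht0 : t ≠ 0 := ht
  refine ⟨fun k => Matrix.GeneralLinearGroup.mkOfDetNeZero (degMat t k) (det_degMat ht0 k), ?_⟩
  funext i
  have hi : i = ![i 0, i 1, i 2, i 3] := by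
    funext k
    fin_cases k <;> rfl
  have h3 := act_degMat ht0 (i 0) (i 1) (i 2) (i 3)
  rw [← hi] at h3
  exact h3

theorem no_oneParam (r : ℕ) (hr : r = 2 ∨ r = 3) (lam : ℂˣ →* (Fin 4 → GL (Fin 3) ℂ))
    (hlam : IsOneParam lam) (S : Tensor 4 3) (hS : S ∈ orbit (unitT 4 3 r))
    (hlim : HasLimit lam exampleT S) : False := by
  obtain ⟨g, rfl⟩ := hS
  -- conjugate
  let M : Fin 4 → ℂˣ → Matrix (Fin 3) (Fin 3) ℂ := fun k t =>
    ((g k)⁻¹).1 * (lam t k).1 * (g k).1
  have hgg : ∀ k, (g k).1 * ((g k)⁻¹).1 = 1 := fun k => (g k).mul_inv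
  have hgg' : ∀ k, ((g k)⁻¹).1 * (g k).1 = 1 := fun k => (g k).inv_mul
  have hlim' : Tendsto (fun t => act (fun k => M k t) (act (fun k => ((g k)⁻¹).1) exampleT))
      (comap (fun t : ℂˣ => (t : ℂ)) (𝓝 0)) (𝓝 (unitT 4 3 r)) := by
    have h1 := ((continuous_act fun k => ((g k)⁻¹).1).tendsto _).comp hlim
    have h2 : act (fun k => ((g k)⁻¹).1) (act (fun k => (g k).1) (unitT 4 3 r)) =
        unitT 4 3 r := by
      rw [act_act]
      simp only [hgg', act_one]
    rw [h2] at h1
    refine h1.congr fun t => ?_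
    simp only [Function.comp, act_act, M]
    congr 1
    funext k
    rw [Matrix.mul_assoc, Matrix.mul_assoc, hgg, Matrix.mul_one]
  obtain ⟨π, hH, hD, hE⟩ := exists_restriction M
    (fun k => by
      simp only [M, map_one]
      rw [Pi.one_apply, Units.val_one, Matrix.mul_one, hgg'])
    (fun k s t => by
      simp only [M, map_mul, Pi.mul_apply, Units.val_mul]
      calc _ = ((g k)⁻¹).1 * ((lam s k).1 * ((g k).1 * ((g k)⁻¹).1) * (lam t k).1) * (g k).1 := by
            rw [hgg, Matrix.mul_one]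
        _ = _ := by simp only [Matrix.mul_assoc])
    (fun k i j => by
      simp only [M, Matrix.mul_apply, Finset.sum_mul]
      refine IsLaurent.sum _ fun b _ => IsLaurent.sum _ fun c _ => ?_
      have := (hlam k c b).const_mul (((g k)⁻¹).1 i c * (g k).1 b j)
      refine (show (fun t => ((g k)⁻¹).1 i c * (lam t k).1 c b * (g k).1 b j) =
        fun t => ((g k)⁻¹).1 i c * (g k).1 b j * (lam t k).1 c b from ?_) ▸ this
      funext t
      ring)
    _ r hr hlim'
  rw [act_act] at hH hD hE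
  exact no_restriction _ hH hD hE

/-- **There is a tensor whose border subrank exceeds its Hilbert-Mumford subrank.**  The example is
in `(ℂ^3)^{⊗ 4}`; the Hilbert-Mumford subrank may be read with the limit equal to `I_r`
(`hmSubrankStrict`) or in the orbit of `I_r` (`hmSubrank`). -/
theorem result :
    ∃ T : Tensor 4 3, hmSubrankStrict T ≤ hmSubrank T ∧ hmSubrank T < borderSubrank T := by
  refine ⟨exampleT, ?_, ?_⟩
  · apply csSup_le_csSup' bddAbove_aux
    rintro r ⟨hr, lam, hlam, hlim⟩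
    refine ⟨hr, lam, hlam, _, ⟨fun _ => 1, ?_⟩, hlim⟩
    simp only [Units.val_one]
    exact act_one _
  · have h1 : hmSubrank exampleT ≤ 1 := by
      apply csSup_le'
      rintro r ⟨hr, lam, hlam, S, hS, hlim⟩
      by_contra h
      exact no_oneParam r (by omega) lam hlam S hS hlim
    have h2 : 2 ≤ borderSubrank exampleT := le_csSup bddAbove_aux ⟨by omega, border⟩
    omega

end Pool.Agent.Results.MP_5e02e7_ag.HilbertMumfordGap
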